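import Mathlib
import Pool.Agent.H3.Frg2.Stmt

set_option autoImplicit false

/-!
# Negations of balanced k-CNFs, derivations: the definitions used in the statement
-/

namespace Pool.Agent.H3.Frg4

open Pool.Agent.H3.Frg Pool.Agent.H3.Frg2

variable {V : Type}

/-- A literal: a variable or a negated variable. -/
def IsLit (A : Fm V) : Prop := ∃ v, A = Fm.var v ∨ A = Fm.neg (Fm.var v)

/-- `IsClause k A`: the formula `A` is a disjunction `l₁ ∨ (l₂ ∨ (… ∨ lₘ))` of at most `k`
literals, `1 ≤ m ≤ k`, where the disjunction `B ∨ C` is written `¬B → C`. -/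
inductive IsClause : ℕ → Fm V → Prop
  | lit (k : ℕ) (A : Fm V) : IsLit A → IsClause (k + 1) A
  | or (k : ℕ) (A B : Fm V) : IsLit A → IsClause k B → IsClause (k + 1) (Fm.imp (Fm.neg A) B)

/-- The balanced conjunction of the `2 ^ d` formulas `C 0, …, C (2 ^ d - 1)`; the conjunction
`B ∧ C` is written `¬(B → ¬C)`. -/
def bigAnd : ℕ → (ℕ → Fm V) → Fm V
  | 0, C => C 0
  | d + 1, C => Fm.neg (Fm.imp (bigAnd d C) (Fm.neg (bigAnd d fun i => C (2 ^ d + i))))

/-- A derivation from the formulas in `Γ` in the Frege system with axiom schemes `Sch` (a set of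
formulas in the metavariables `0, 1, 2, …`) and modus ponens: every line is in `Γ`, or is a
substitution instance of a scheme, or follows from two earlier lines by modus ponens. -/
def IsDer (Sch : Set (Fm ℕ)) (Γ : Set (Fm V)) {L : ℕ} (pf : Fin L → Fm V) : Prop :=
  ∀ i, pf i ∈ Γ ∨ (∃ ψ ∈ Sch, ∃ σ : ℕ → Fm V, pf i = ψ.bind σ) ∨
    (∃ j k, j < i ∧ k < i ∧ pf k = Fm.imp (pf j) (pf i))

end Pool.Agent.H3.Frg4
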