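import Mathlib
import Pool.Agent.H3.Frg4.Defs4
import Pool.Agent.H3.Frg2.Taut

set_option autoImplicit false
set_option linter.unusedSectionVars false

/-!
# Derivations from hypotheses and proofs of the iterated implication
-/

namespace Pool.Agent.H3.Frg4

open Finset Pool.Agent.H3.Frg Pool.Agent.H3.Frg2

variable {V : Type}

/-- proofs as lists, newest line first -/
inductive PL (Sch : Set (Fm ℕ)) : List (Fm V) → Prop
  | nil : PL Sch []
  | ax (l : List (Fm V)) (ψ : Fm ℕ) (σ : ℕ → Fm V) : PL Sch l → ψ ∈ Sch →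
      PL Sch (ψ.bind σ :: l)
  | mp (l : List (Fm V)) (A B : Fm V) : PL Sch l → A ∈ l → Fm.imp A B ∈ l → PL Sch (B :: l)

theorem PL.toProof {Sch : Set (Fm ℕ)} {l : List (Fm V)} (h : PL Sch l) :
    ∃ pf : Fin l.length → Fm V, IsProof Sch pf ∧ (∀ i, pf i ∈ l) ∧ ∀ A ∈ l, ∃ i, pf i = A := by
  induction h with
  | nil => exact ⟨fun i => absurd i.isLt (by simp), fun i => absurd i.isLt (by simp),
      fun i => absurd i.isLt (by simp), by simp⟩
  | ax l ψ σ hl hψ ih =>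
    obtain ⟨pf, h1, h2, h3⟩ := ih
    refine ⟨fun i => if h : (i : ℕ) < l.length then pf ⟨i, h⟩ else ψ.bind σ, ?_, ?_, ?_⟩
    · intro i
      by_cases hi : (i : ℕ) < l.length
      · rcases h1 ⟨i, hi⟩ with ⟨φ, hφ, τ, h4⟩ | ⟨j, k, hj, hk, h4⟩
        · exact Or.inl ⟨φ, hφ, τ, by simp only [hi, dif_pos]; exact h4⟩
        · refine Or.inr ⟨⟨j, Nat.lt_succ_of_lt j.isLt⟩, ⟨k, Nat.lt_succ_of_lt k.isLt⟩, hj, hk, ?_⟩
          simp only [hi, dif_pos, j.isLt, k.isLt]
          exact h4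
      · exact Or.inl ⟨ψ, hψ, σ, by simp only [hi, dif_neg, not_false_iff]⟩
    · intro i
      by_cases hi : (i : ℕ) < l.length
      · simp only [hi, dif_pos]
        exact List.mem_cons_of_mem _ (h2 _)
      · simp only [hi, dif_neg, not_false_iff]
        exact List.mem_cons_self
    · intro A hA
      rcases List.mem_cons.mp hA with rfl | hA
      · exact ⟨⟨l.length, by simp⟩, by simp⟩
      · obtain ⟨i, hi⟩ := h3 A hA
        exact ⟨⟨i, Nat.lt_succ_of_lt i.isLt⟩, by simp only [i.isLt, dif_pos]; exact hi⟩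
  | mp l A B hl hA hAB ih =>
    obtain ⟨pf, h1, h2, h3⟩ := ih
    refine ⟨fun i => if h : (i : ℕ) < l.length then pf ⟨i, h⟩ else B, ?_, ?_, ?_⟩
    · intro i
      by_cases hi : (i : ℕ) < l.length
      · rcases h1 ⟨i, hi⟩ with ⟨φ, hφ, τ, h4⟩ | ⟨j, k, hj, hk, h4⟩
        · exact Or.inl ⟨φ, hφ, τ, by simp only [hi, dif_pos]; exact h4⟩
        · refine Or.inr ⟨⟨j, Nat.lt_succ_of_lt j.isLt⟩, ⟨k, Nat.lt_succ_of_lt k.isLt⟩, hj, hk, ?_⟩
          simp only [hi, dif_pos, j.isLt, k.isLt]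
          exact h4
      · obtain ⟨j, hj⟩ := h3 A hA
        obtain ⟨k, hk⟩ := h3 _ hAB
        refine Or.inr ⟨⟨j, Nat.lt_succ_of_lt j.isLt⟩, ⟨k, Nat.lt_succ_of_lt k.isLt⟩, ?_, ?_, ?_⟩
        · show (j : ℕ) < (i : ℕ)
          have := j.isLt; omega
        · show (k : ℕ) < (i : ℕ)
          have := k.isLt; omega
        · simp only [hi, dif_neg, not_false_iff, j.isLt, k.isLt, dif_pos]
          show pf k = Fm.imp (pf j) B
          rw [hj, hk]
    · intro i
      by_cases hi : (i : ℕ) < l.length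
      · simp only [hi, dif_pos]
        exact List.mem_cons_of_mem _ (h2 _)
      · simp only [hi, dif_neg, not_false_iff]
        exact List.mem_cons_self
    · intro A' hA'
      rcases List.mem_cons.mp hA' with rfl | hA'
      · exact ⟨⟨l.length, by simp⟩, by simp⟩
      · obtain ⟨i, hi⟩ := h3 A' hA'
        exact ⟨⟨i, Nat.lt_succ_of_lt i.isLt⟩, by simp only [i.isLt, dif_pos]; exact hi⟩

/-- `Ex Sch s c l B`: the proof `l` extends to a proof that contains `B` by at most `c` further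
lines of length at most `s` -/
def Ex (Sch : Set (Fm ℕ)) (s c : ℕ) (l : List (Fm V)) (P : List (Fm V) → Prop) : Prop :=
  ∃ l', PL Sch l' ∧ l ⊆ l' ∧ l'.length ≤ l.length + c ∧ (∀ A ∈ l', A ∈ l ∨ A.len ≤ s) ∧ P l'

/-- the iterated implication -/
def chain (As : List (Fm V)) (B : Fm V) : Fm V := As.foldr Fm.imp B

/-- length of the antecedents -/
def clen (As : List (Fm V)) : ℕ := (As.map fun A => A.len + 1).sum

theorem len_chain (As : List (Fm V)) (B : Fm V) : (chain As B).len = clen As + B.len := by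
  induction As with
  | nil => simp [chain, clen]
  | cons A l ih =>
    simp only [chain, clen, List.foldr_cons, Fm.len, List.map_cons, List.sum_cons] at ih ⊢
    omega

/-- the schemes needed for the simulation -/
structure Sim (Sch : Set (Fm ℕ)) : Prop where
  /-- identity -/
  t1 : ∃ ψ ∈ Sch, ∀ {V : Type} (A : Fm V), ∃ σ : ℕ → Fm V, ψ.bind σ = Fm.imp A A
  /-- weakening -/
  t2 : ∃ ψ ∈ Sch, ∀ {V : Type} (A B : Fm V), ∃ σ : ℕ → Fm V, ψ.bind σ = Fm.imp A (Fm.imp B A)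
  /-- weakening inside -/
  t3 : ∃ ψ ∈ Sch, ∀ {V : Type} (A B C : Fm V), ∃ σ : ℕ → Fm V,
    ψ.bind σ = Fm.imp (Fm.imp A B) (Fm.imp A (Fm.imp C B))
  /-- common antecedent -/
  t4 : ∃ ψ ∈ Sch, ∀ {V : Type} (A X Y Z : Fm V), ∃ σ : ℕ → Fm V,
    ψ.bind σ = Fm.imp (Fm.imp X (Fm.imp Y Z))
      (Fm.imp (Fm.imp A X) (Fm.imp (Fm.imp A Y) (Fm.imp A Z)))
  /-- contradiction -/
  t5 : ∃ ψ ∈ Sch, ∀ {V : Type} (A B : Fm V), ∃ σ : ℕ → Fm V,
    ψ.bind σ = Fm.imp (Fm.neg A) (Fm.imp A B)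
  /-- conjunction -/
  t6 : ∃ ψ ∈ Sch, ∀ {V : Type} (A B : Fm V), ∃ σ : ℕ → Fm V,
    ψ.bind σ = Fm.imp A (Fm.imp B (Fm.neg (Fm.imp A (Fm.neg B))))

section Steps

variable {Sch : Set (Fm ℕ)} {s : ℕ}

theorem ex_trans {c c' : ℕ} {l : List (Fm V)} {P Q : List (Fm V) → Prop}
    (h1 : Ex Sch s c l P) (h2 : ∀ l', PL Sch l' → l ⊆ l' → P l' → Ex Sch s c' l' Q) :
    Ex Sch s (c + c') l Q := by
  obtain ⟨l', a1, a2, a3, a4, a5⟩ := h1
  obtain ⟨l'', b1, b2, b3, b4, b5⟩ := h2 l' a1 a2 a5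
  refine ⟨l'', b1, fun x hx => b2 (a2 hx), by omega, fun A hA => ?_, b5⟩
  rcases b4 A hA with h | h
  · exact a4 A h
  · exact Or.inr h

theorem ex_mono {c c' : ℕ} {l : List (Fm V)} {P Q : List (Fm V) → Prop}
    (h1 : Ex Sch s c l P) (hc : c ≤ c') (hPQ : ∀ l', l ⊆ l' → P l' → Q l') :
    Ex Sch s c' l Q := by
  obtain ⟨l', a1, a2, a3, a4, a5⟩ := h1
  exact ⟨l', a1, a2, by omega, a4, hPQ l' a2 a5⟩

theorem ex_ax {l : List (Fm V)} (hl : PL Sch l) {A : Fm V} (hA : ∃ ψ ∈ Sch, ∃ σ : ℕ → Fm V,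
    ψ.bind σ = A) (hs : A.len ≤ s) : Ex Sch s 1 l fun l' => A ∈ l' := by
  obtain ⟨ψ, hψ, σ, h⟩ := hA
  refine ⟨A :: l, h ▸ PL.ax l ψ σ hl hψ, fun x hx => List.mem_cons_of_mem _ hx, by simp,
    fun B hB => ?_, List.mem_cons_self⟩
  rcases List.mem_cons.mp hB with rfl | hB
  · exact Or.inr hs
  · exact Or.inl hB

theorem ex_mp {l : List (Fm V)} (hl : PL Sch l) {A B : Fm V} (hA : A ∈ l) (hAB : Fm.imp A B ∈ l)
    (hs : B.len ≤ s) : Ex Sch s 1 l fun l' => B ∈ l' := by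
  refine ⟨B :: l, PL.mp l A B hl hA hAB, fun x hx => List.mem_cons_of_mem _ hx, by simp,
    fun B' hB => ?_, List.mem_cons_self⟩
  rcases List.mem_cons.mp hB with rfl | hB
  · exact Or.inr hs
  · exact Or.inl hB

/-- an instance followed by modus ponens -/
theorem ex_ax_mp {l : List (Fm V)} (hl : PL Sch l) {A B : Fm V} (hA : A ∈ l)
    (hψ : ∃ ψ ∈ Sch, ∃ σ : ℕ → Fm V, ψ.bind σ = Fm.imp A B) (hs : (Fm.imp A B).len ≤ s) :
    Ex Sch s 2 l fun l' => B ∈ l' := by
  refine ex_trans (c := 1) (c' := 1) (ex_ax hl hψ hs) fun l' h1 h2 h3 => ?_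
  refine ex_mp h1 (h2 hA) h3 ?_
  simp only [Fm.len] at hs
  omega

variable (hS : Sim Sch)
include hS

theorem ex_weak {B : Fm V} (As : List (Fm V)) {l : List (Fm V)} (hl : PL Sch l) (hB : B ∈ l)
    (hs : 3 * (clen As + B.len) + 3 ≤ s) :
    Ex Sch s (2 * As.length) l fun l' => chain As B ∈ l' := by
  induction As with
  | nil => exact ⟨l, hl, fun x hx => hx, by simp, fun A hA => Or.inl hA, hB⟩
  | cons A As ih =>
    have e : 2 * (A :: As).length = 2 * As.length + 2 := by simp; ring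
    have e1 : clen (A :: As) = A.len + 1 + clen As := by simp [clen]
    rw [e]
    rw [e1] at hs
    refine ex_trans (ih (by omega)) fun l' h1 h2 h3 => ?_
    obtain ⟨ψ, hψ, h⟩ := hS.t2
    refine ex_ax_mp h1 h3 ⟨ψ, hψ, h (chain As B) A⟩ ?_
    simp only [Fm.len, len_chain]
    omega

theorem ex_inner {A : Fm V} (As : List (Fm V)) {l : List (Fm V)} (hl : PL Sch l)
    (hs : 4 * (clen As + A.len) + 8 ≤ s) :
    Ex Sch s (2 * As.length + 1) l fun l' => Fm.imp A (chain As A) ∈ l' := by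
  induction As with
  | nil =>
    obtain ⟨ψ, hψ, h⟩ := hS.t1
    refine ex_mono (ex_ax hl ⟨ψ, hψ, h A⟩ ?_) (by simp) fun l' _ h => h
    simp only [Fm.len]; omega
  | cons C As ih =>
    have e : 2 * (C :: As).length + 1 = (2 * As.length + 1) + 2 := by simp; ring
    have e1 : clen (C :: As) = C.len + 1 + clen As := by simp [clen]
    rw [e]
    rw [e1] at hs
    refine ex_trans (ih (by omega)) fun l' h1 h2 h3 => ?_
    obtain ⟨ψ, hψ, h⟩ := hS.t3
    refine ex_ax_mp h1 h3 ⟨ψ, hψ, h A (chain As A) C⟩ ?_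
    simp only [Fm.len, len_chain]
    omega

theorem ex_hyp {A : Fm V} (As : List (Fm V)) (hA : A ∈ As) {l : List (Fm V)} (hl : PL Sch l)
    (hs : 4 * (clen As + A.len) + 8 ≤ s) :
    Ex Sch s (2 * As.length + 1) l fun l' => chain As A ∈ l' := by
  induction As with
  | nil => simp at hA
  | cons C As ih =>
    have e1 : clen (C :: As) = C.len + 1 + clen As := by simp [clen]
    rw [e1] at hs
    rcases List.mem_cons.mp hA with rfl | hA
    · exact ex_mono (ex_inner hS As hl (by omega)) (by simp) fun l' _ h => h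
    · have e : 2 * (C :: As).length + 1 = (2 * As.length + 1) + 2 := by simp; ring
      rw [e]
      refine ex_trans (ih hA (by omega)) fun l' h1 h2 h3 => ?_
      obtain ⟨ψ, hψ, h⟩ := hS.t2
      refine ex_ax_mp h1 h3 ⟨ψ, hψ, h (chain As A) C⟩ ?_
      simp only [Fm.len, len_chain]
      omega

theorem ex_dist {B C : Fm V} (As : List (Fm V)) {l : List (Fm V)} (hl : PL Sch l)
    (hs : 6 * (clen As + B.len + C.len) + 16 ≤ s) :
    Ex Sch s (2 * As.length + 1) l fun l' =>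
      Fm.imp (chain As (Fm.imp B C)) (Fm.imp (chain As B) (chain As C)) ∈ l' := by
  induction As with
  | nil =>
    obtain ⟨ψ, hψ, h⟩ := hS.t1
    refine ex_mono (ex_ax hl ⟨ψ, hψ, h (Fm.imp B C)⟩ ?_) (by simp) fun l' _ h => h
    simp only [Fm.len]; omega
  | cons A As ih =>
    have e : 2 * (A :: As).length + 1 = (2 * As.length + 1) + 2 := by simp; ring
    have e1 : clen (A :: As) = A.len + 1 + clen As := by simp [clen]
    rw [e]
    rw [e1] at hs
    refine ex_trans (ih (by omega)) fun l' h1 h2 h3 => ?_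
    obtain ⟨ψ, hψ, h⟩ := hS.t4
    refine ex_ax_mp h1 h3 ⟨ψ, hψ, h A (chain As (Fm.imp B C)) (chain As B) (chain As C)⟩ ?_
    simp only [Fm.len, len_chain]
    omega

/-- modus ponens below a common list of antecedents -/
theorem ex_cmp {B C : Fm V} (As : List (Fm V)) {l : List (Fm V)} (hl : PL Sch l)
    (h1 : chain As B ∈ l) (h2 : chain As (Fm.imp B C) ∈ l)
    (hs : 6 * (clen As + B.len + C.len) + 16 ≤ s) :
    Ex Sch s (2 * As.length + 3) l fun l' => chain As C ∈ l' := by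
  have e : 2 * As.length + 3 = (2 * As.length + 1) + (1 + 1) := by ring
  rw [e]
  refine ex_trans (ex_dist hS As hl hs) fun l' a1 a2 a3 => ?_
  refine ex_trans (ex_mp a1 (a2 h2) a3 ?_) fun l'' b1 b2 b3 => ?_
  · simp only [Fm.len, len_chain]; omega
  · refine ex_mp b1 (b2 (a2 h1)) b3 ?_
    simp only [len_chain]; omega

/-- an axiom scheme below a list of antecedents, applied to one premise -/
theorem ex_cax {B C : Fm V} (As : List (Fm V)) {l : List (Fm V)} (hl : PL Sch l)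
    (h1 : chain As B ∈ l) (h2 : ∃ ψ ∈ Sch, ∃ σ : ℕ → Fm V, ψ.bind σ = Fm.imp B C)
    (hs : 6 * (clen As + B.len + C.len) + 16 ≤ s) :
    Ex Sch s (4 * As.length + 4) l fun l' => chain As C ∈ l' := by
  have e : 4 * As.length + 4 = 1 + (2 * As.length + (2 * As.length + 3)) := by ring
  rw [e]
  refine ex_trans (ex_ax hl h2 (by simp only [Fm.len]; omega)) fun l1 a1 a2 a3 => ?_
  refine ex_trans (ex_weak hS As a1 a3 (by simp only [Fm.len]; omega)) fun l2 b1 b2 b3 => ?_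
  exact ex_cmp hS As b1 (b2 (a2 h1)) b3 hs

end Steps

section Main

variable {Sch : Set (Fm ℕ)} {s : ℕ}

/-- the simulation of a derivation from formulas each of which follows from one antecedent -/
theorem ex_der (hS : Sim Sch) (As : List (Fm V)) (Γ : Set (Fm V)) {s0 : ℕ}
    (hΓ : ∀ C ∈ Γ, ∃ A ∈ As, ∃ ψ ∈ Sch, ∃ σ : ℕ → Fm V, ψ.bind σ = Fm.imp A C)
    {L : ℕ} (pf : Fin L → Fm V) (hpf : IsDer Sch Γ pf) (hlen : ∀ i, (pf i).len ≤ s0)
    (hs : 12 * (clen As + s0) + 30 ≤ s) :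
    ∀ m, m ≤ L → Ex Sch s (m * (6 * As.length + 6)) ([] : List (Fm V)) fun l' =>
      ∀ i : Fin L, (i : ℕ) < m → chain As (pf i) ∈ l' := by
  intro m
  induction m with
  | zero => intro _; exact ⟨[], PL.nil, by simp, by simp, by simp, fun i hi => by omega⟩
  | succ m ih =>
    intro hm
    have e : (m + 1) * (6 * As.length + 6) = m * (6 * As.length + 6) + (6 * As.length + 6) := by
      ring
    rw [e]
    refine ex_trans (ih (by omega)) fun l a1 a2 a3 => ?_
    have hnew : Ex Sch s (6 * As.length + 6) l fun l' => chain As (pf ⟨m, by omega⟩) ∈ l' := by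
      have hl0 := hlen ⟨m, by omega⟩
      rcases hpf ⟨m, by omega⟩ with h | ⟨ψ, hψ, σ, h⟩ | ⟨j, k, hj, hk, h⟩
      · obtain ⟨A, hA, h1⟩ := hΓ _ h
        have hAl : A.len + 1 ≤ clen As := by
          unfold clen
          exact List.le_sum_of_mem (List.mem_map.mpr ⟨A, hA, rfl⟩)
        have e2 : 6 * As.length + 6 = (2 * As.length + 1) + (4 * As.length + 5) := by ring
        rw [e2]
        refine ex_trans (ex_hyp hS As hA a1 (by omega)) fun l1 b1 b2 b3 => ?_
        exact ex_mono (ex_cax hS As b1 b3 h1 (by omega)) (by omega) fun _ _ h => h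
      · have e2 : 6 * As.length + 6 = 1 + (6 * As.length + 5) := by ring
        rw [e2]
        refine ex_trans (ex_ax a1 ⟨ψ, hψ, σ, h.symm⟩ (by omega)) fun l1 b1 b2 b3 => ?_
        exact ex_mono (ex_weak hS As b1 b3 (by omega)) (by omega) fun _ _ h => h
      · have h1 := a3 j hj
        have h2 := a3 k hk
        rw [h] at h2
        have hk0 := hlen k
        rw [h] at hk0
        simp only [Fm.len] at hk0
        exact ex_mono (ex_cmp hS As a1 h1 h2 (by omega)) (by omega) fun _ _ h => h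
    refine ex_mono hnew le_rfl fun l' hll h i hi => ?_
    rcases Nat.lt_succ_iff_lt_or_eq.mp hi with h1 | h1
    · exact hll (a3 i h1)
    · have : i = ⟨m, by omega⟩ := Fin.ext h1
      rw [this]; exact h

/-- length of the balanced conjunction -/
theorem len_bigAnd (c : ℕ) : ∀ (d : ℕ) (C : ℕ → Fm V), (∀ i, (C i).len ≤ c) →
    (bigAnd d C).len + 3 ≤ 2 ^ d * (c + 3) := by
  intro d
  induction d with
  | zero => intro C h; simp only [bigAnd, pow_zero, one_mul]; have := h 0; omega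
  | succ d ih =>
    intro C h
    simp only [bigAnd, Fm.len]
    have h1 := ih C h
    have h2 := ih (fun i => C (2 ^ d + i)) fun i => h _
    have h3 : 2 ^ (d + 1) * (c + 3) = 2 ^ d * (c + 3) + 2 ^ d * (c + 3) := by ring
    omega

/-- the balanced conjunction is derivable -/
theorem ex_bigAnd (hS : Sim Sch) (As : List (Fm V)) {c : ℕ} :
    ∀ (d : ℕ) (C : ℕ → Fm V), (∀ i, (C i).len ≤ c) →
      (∀ i, ∃ A ∈ As, ∃ ψ ∈ Sch, ∃ σ : ℕ → Fm V, ψ.bind σ = Fm.imp A (C i)) →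
      ∀ l : List (Fm V), PL Sch l →
      12 * (clen As + 2 ^ d * (c + 3)) + 30 ≤ s →
      ∀ N : ℕ, 2 ^ d * (12 * As.length + 12) ≤ N + (6 * As.length + 7) →
      Ex Sch s N l fun l' => chain As (bigAnd d C) ∈ l' := by
  intro d
  induction d with
  | zero =>
    intro C hc hA l hl hs N hN
    obtain ⟨A, hA, h1⟩ := hA 0
    have hAl : A.len + 1 ≤ clen As := by
      unfold clen
      exact List.le_sum_of_mem (List.mem_map.mpr ⟨A, hA, rfl⟩)
    have hc0 := hc 0
    rw [pow_zero, one_mul] at hs hN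
    refine ex_mono (c := (2 * As.length + 1) + (4 * As.length + 4)) (ex_trans
      (ex_hyp hS As hA hl (by omega)) fun l1 b1 b2 b3 => ex_cax hS As b1 b3 h1 (by omega))
      (by omega) fun _ _ h => h
  | succ d ih =>
    intro C hc hA l hl hs N hN
    have h3 : 2 ^ (d + 1) * (c + 3) = 2 ^ d * (c + 3) + 2 ^ d * (c + 3) := by ring
    have h4 : 2 ^ (d + 1) * (12 * As.length + 12)
        = 2 ^ d * (12 * As.length + 12) + 2 ^ d * (12 * As.length + 12) := by ring
    have hp : 1 * (12 * As.length + 12) ≤ 2 ^ d * (12 * As.length + 12) :=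
      Nat.mul_le_mul_right _ Nat.one_le_two_pow
    obtain ⟨R, hR⟩ : ∃ R, R = 2 ^ d * (12 * As.length + 12) := ⟨_, rfl⟩
    obtain ⟨T, hT⟩ : ∃ T, T = 2 ^ d * (c + 3) := ⟨_, rfl⟩
    have hl1 := len_bigAnd c d C hc
    have hl2 := len_bigAnd c d (fun i => C (2 ^ d + i)) fun i => hc _
    have hl3 : (bigAnd (d + 1) C).len = (bigAnd d C).len +
        ((bigAnd d fun i => C (2 ^ d + i)).len + 1) + 1 + 1 := rfl
    rw [← hT] at hl1 hl2 h3
    rw [← hR] at h4 hp
    rw [h3] at hs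
    rw [h4] at hN
    refine ex_mono (c := (R - (6 * As.length + 7)) + ((R - (6 * As.length + 7)) +
      ((4 * As.length + 4) + (2 * As.length + 3)))) ?_ (by omega) fun _ _ h => h
    refine ex_trans (ih C hc hA l hl (by rw [← hT]; omega) _ (by rw [← hR]; omega))
      fun l1 a1 a2 a3 => ?_
    refine ex_trans (ih (fun i => C (2 ^ d + i)) (fun i => hc _) (fun i => hA _) l1 a1
      (by rw [← hT]; omega) _ (by rw [← hR]; omega)) fun l2 b1 b2 b3 => ?_
    obtain ⟨ψ, hψ, h⟩ := hS.t6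
    refine ex_trans (ex_cax hS As b1 (b2 a3) ⟨ψ, hψ, h (bigAnd d C)
      (bigAnd d fun i => C (2 ^ d + i))⟩ (by simp only [Fm.len]; omega)) fun l3 c1 c2 c3 => ?_
    exact ex_cmp hS As c1 (c2 b3) c3 (by omega)

/-- from derivations of the negated conjunction to proofs of the iterated implication -/
theorem simul (hS : Sim Sch) (As : List (Fm V)) (v0 : V) {c d s0 : ℕ} (C : ℕ → Fm V)
    (hc : ∀ i, (C i).len ≤ c)
    (hA : ∀ i, ∃ A ∈ As, ∃ ψ ∈ Sch, ∃ σ : ℕ → Fm V, ψ.bind σ = Fm.imp A (C i))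
    {L : ℕ} (pf : Fin L → Fm V) (hpf : IsDer Sch (Set.range C) pf) (hlen : ∀ i, (pf i).len ≤ s0)
    (hfin : ∃ i, pf i = Fm.neg (bigAnd d C))
    (hs : 12 * (clen As + s0 + 2 ^ d * (c + 3)) + 60 ≤ s) :
    ∃ (L' : ℕ) (pf' : Fin L' → Fm V), L' ≤ (L + 2 * 2 ^ d + 2) * (6 * As.length + 7) ∧
      IsProof Sch pf' ∧ (∀ i, (pf' i).len ≤ s) ∧ ∃ i, pf' i = As.foldr Fm.imp (bot v0) := by
  have hl1 := len_bigAnd c d C hc
  have h1 : Ex Sch s (L * (6 * As.length + 6) + (2 ^ d * (12 * As.length + 12) +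
      ((4 * As.length + 4) + (2 * As.length + 3)))) ([] : List (Fm V)) fun l' =>
      chain As (bot v0) ∈ l' := by
    refine ex_trans (ex_der hS As (Set.range C) (fun B hB => by
      obtain ⟨i, rfl⟩ := hB
      exact hA i) pf hpf hlen (by omega) L le_rfl) fun l1 a1 a2 a3 => ?_
    refine ex_trans (ex_bigAnd hS As d C hc hA l1 a1 (by omega) _ (by omega))
      fun l2 b1 b2 b3 => ?_
    obtain ⟨i, hi⟩ := hfin
    have h2 := b2 (a3 i i.isLt)
    rw [hi] at h2
    obtain ⟨ψ, hψ, h⟩ := hS.t5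
    refine ex_trans (ex_cax hS As b1 h2 ⟨ψ, hψ, h (bigAnd d C) (bot v0)⟩
      (by simp only [Fm.len, len_bot]; omega)) fun l3 c1 c2 c3 => ?_
    exact ex_cmp hS As c1 (c2 b3) c3 (by simp only [len_bot]; omega)
  obtain ⟨l', d1, -, d3, d4, d5⟩ := h1
  obtain ⟨pf', e1, e2, e3⟩ := d1.toProof
  refine ⟨l'.length, pf', ?_, e1, fun i => ?_, e3 _ d5⟩
  · refine d3.trans ?_
    simp only [List.length_nil, zero_add]
    have : (L + 2 * 2 ^ d + 2) * (6 * As.length + 7) = L * (6 * As.length + 6) + L +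
      (2 ^ d * (12 * As.length + 12) + 2 * 2 ^ d) + 2 * (6 * As.length + 7) := by ring
    omega
  · rcases d4 _ (e2 i) with h | h
    · simp at h
    · exact h

end Main

section Finite

/-- the tautologies with few variables and bounded length -/
def Tau (m ℓ : ℕ) : Set (Fm ℕ) :=
  {ψ | (∀ x, ψ.eval x = true) ∧ ψ.vars ⊆ Finset.range m ∧ ψ.len ≤ ℓ}

theorem finite_len (m : ℕ) : ∀ ℓ : ℕ,
    {ψ : Fm ℕ | ψ.vars ⊆ Finset.range m ∧ ψ.len ≤ ℓ}.Finite := by
  intro ℓ
  induction ℓ with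
  | zero =>
    refine Set.Finite.subset Set.finite_empty ?_
    rintro ψ ⟨-, h⟩
    cases ψ <;> simp [Fm.len] at h
  | succ ℓ ih =>
    refine Set.Finite.subset (((Finset.range m).finite_toSet.image Fm.var).union
      ((ih.image Fm.neg).union (ih.image2 Fm.imp ih))) ?_
    rintro ψ ⟨h1, h2⟩
    cases ψ with
    | var i =>
      left
      exact ⟨i, by simpa [Fm.vars] using h1, rfl⟩
    | neg A =>
      right; left
      exact ⟨A, ⟨h1, by simp only [Fm.len] at h2; omega⟩, rfl⟩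
    | imp A B =>
      right; right
      simp only [Fm.vars, Finset.union_subset_iff] at h1
      simp only [Fm.len] at h2
      exact ⟨A, ⟨h1.1, by omega⟩, B, ⟨h1.2, by omega⟩, rfl⟩

theorem finite_Tau (m ℓ : ℕ) : (Tau m ℓ).Finite :=
  (finite_len m ℓ).subset fun _ h => ⟨h.2.1, h.2.2⟩

theorem sim_of {Sch : Set (Fm ℕ)} {m ℓ : ℕ} (hm : 4 ≤ m) (hℓ : 20 ≤ ℓ) (h : Tau m ℓ ⊆ Sch) :
    Sim Sch := by
  constructor
  · refine ⟨Fm.imp (Fm.var 0) (Fm.var 0), h ⟨fun x => ?_, ?_, ?_⟩, fun A =>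
      ⟨fun _ => A, rfl⟩⟩
    · simp [Fm.eval]
    · intro i hi; simp [Fm.vars] at hi ⊢; omega
    · simp only [Fm.len]; omega
  · refine ⟨Fm.imp (Fm.var 0) (Fm.imp (Fm.var 1) (Fm.var 0)), h ⟨fun x => ?_, ?_, ?_⟩,
      fun A B => ⟨fun i => if i = 0 then A else B, by simp [Fm.bind]⟩⟩
    · simp only [Fm.eval]; cases x 0 <;> cases x 1 <;> rfl
    · intro i hi; simp [Fm.vars] at hi ⊢; omega
    · simp only [Fm.len]; omega
  · refine ⟨Fm.imp (Fm.imp (Fm.var 0) (Fm.var 1)) (Fm.imp (Fm.var 0) (Fm.imp (Fm.var 2)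
      (Fm.var 1))), h ⟨fun x => ?_, ?_, ?_⟩,
      fun A B C => ⟨fun i => if i = 0 then A else if i = 1 then B else C, by
        simp [Fm.bind]⟩⟩
    · simp only [Fm.eval]; cases x 0 <;> cases x 1 <;> cases x 2 <;> rfl
    · intro i hi; simp [Fm.vars] at hi ⊢; omega
    · simp only [Fm.len]; omega
  · refine ⟨Fm.imp (Fm.imp (Fm.var 1) (Fm.imp (Fm.var 2) (Fm.var 3)))
      (Fm.imp (Fm.imp (Fm.var 0) (Fm.var 1)) (Fm.imp (Fm.imp (Fm.var 0) (Fm.var 2))
      (Fm.imp (Fm.var 0) (Fm.var 3)))), h ⟨fun x => ?_, ?_, ?_⟩,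
      fun A X Y Z => ⟨fun i => if i = 0 then A else if i = 1 then X else if i = 2 then Y else Z,
        by simp [Fm.bind]⟩⟩
    · simp only [Fm.eval]
      cases x 0 <;> cases x 1 <;> cases x 2 <;> cases x 3 <;> rfl
    · intro i hi; simp [Fm.vars] at hi ⊢; omega
    · simp only [Fm.len]; omega
  · refine ⟨Fm.imp (Fm.neg (Fm.var 0)) (Fm.imp (Fm.var 0) (Fm.var 1)), h ⟨fun x => ?_, ?_, ?_⟩,
      fun A B => ⟨fun i => if i = 0 then A else B, by simp [Fm.bind]⟩⟩
    · simp only [Fm.eval]; cases x 0 <;> cases x 1 <;> rfl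
    · intro i hi; simp [Fm.vars] at hi ⊢; omega
    · simp only [Fm.len]; omega
  · refine ⟨Fm.imp (Fm.var 0) (Fm.imp (Fm.var 1) (Fm.neg (Fm.imp (Fm.var 0)
      (Fm.neg (Fm.var 1))))), h ⟨fun x => ?_, ?_, ?_⟩,
      fun A B => ⟨fun i => if i = 0 then A else B, by simp [Fm.bind]⟩⟩
    · simp only [Fm.eval]; cases x 0 <;> cases x 1 <;> rfl
    · intro i hi; simp [Fm.vars] at hi ⊢; omega
    · simp only [Fm.len]; omega

theorem ren_congr {V W : Type} [DecidableEq V] (f g : V → W) (A : Fm V)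
    (h : ∀ v ∈ A.vars, f v = g v) : A.ren f = A.ren g := by
  induction A with
  | var i => simp only [Fm.ren]; rw [h i (by simp [Fm.vars])]
  | neg A ih => simp only [Fm.ren]; rw [ih h]
  | imp A B ihA ihB =>
    simp only [Fm.ren]
    rw [ihA fun v hv => h v (by simp [Fm.vars, hv]), ihB fun v hv => h v (by simp [Fm.vars, hv])]

theorem vars_ren {V W : Type} [DecidableEq V] [DecidableEq W] (f : V → W) (A : Fm V) :
    (A.ren f).vars = A.vars.image f := by
  induction A with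
  | var i => simp [Fm.ren, Fm.vars]
  | neg A ih => simpa [Fm.ren, Fm.vars] using ih
  | imp A B ihA ihB => simp only [Fm.ren, Fm.vars, ihA, ihB, Finset.image_union]

theorem bind_var_eq {V : Type} (g : ℕ → V) (A : Fm ℕ) :
    A.bind (fun i => Fm.var (g i)) = A.ren g := by
  induction A with
  | var i => rfl
  | neg A ih => simp only [Fm.bind, Fm.ren, ih]
  | imp A B ihA ihB => simp only [Fm.bind, Fm.ren, ihA, ihB]

/-- every short tautology with few variables is an instance of one of the schemes `Tau` -/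
theorem inst_Tau {V : Type} [DecidableEq V] {m ℓ : ℕ} (v0 : V) (A : Fm V)
    (h1 : ∀ x, A.eval x = true) (h2 : A.vars.card ≤ m) (h3 : A.len ≤ ℓ) :
    ∃ ψ ∈ Tau m ℓ, ∃ σ : ℕ → Fm V, ψ.bind σ = A := by
  classical
  set φ := A.vars.equivFin with hφ
  set f : V → ℕ := fun v => if h : v ∈ A.vars then (φ ⟨v, h⟩ : ℕ) else 0 with hf
  set g : ℕ → V := fun i => if h : i < A.vars.card then ((φ.symm ⟨i, h⟩ : A.vars) : V) else v0
    with hg
  have hgf : ∀ v ∈ A.vars, g (f v) = v := by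
    intro v hv
    have h4 : ((φ ⟨v, hv⟩ : Fin A.vars.card) : ℕ) < A.vars.card := (φ ⟨v, hv⟩).isLt
    rw [hg, hf]
    simp only [hv, dif_pos, h4]
    simp
  refine ⟨A.ren f, ⟨fun x => ?_, ?_, ?_⟩, fun i => Fm.var (g i), ?_⟩
  · rw [eval_ren]; exact h1 _
  · rw [vars_ren]
    intro i hi
    obtain ⟨v, hv, rfl⟩ := Finset.mem_image.mp hi
    rw [Finset.mem_range, hf]
    simp only [hv, dif_pos]
    exact lt_of_lt_of_le (φ ⟨v, hv⟩).isLt h2
  · rw [len_ren]; exact h3
  · rw [bind_var_eq, ren_ren]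
    conv_rhs => rw [← ren_id A]
    exact ren_congr _ _ A fun v hv => hgf v hv

end Finite

end Pool.Agent.H3.Frg4
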