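import Mathlib
import Pool.Agent.H3.Frg4.Simul
import Pool.Agent.H3.Frg3.Taut3

set_option autoImplicit false
set_option linter.unusedSectionVars false

/-!
# The k-CNF
-/

namespace Pool.Agent.H3.Frg4

open Finset Pool.Agent.H3.Frg Pool.Agent.H3.Frg2 Pool.Agent.H3.Frg3

section Clause

variable {V : Type}

/-- the literal that is false when the variable `v` has the value `b` -/
def ltr (v : V) (b : Bool) : Fm V := if b then Fm.neg (Fm.var v) else Fm.var v

/-- the clause that excludes the assignment `a` of the variables `v :: l` -/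
def excl (a : V → Bool) : V → List V → Fm V
  | v, [] => ltr v (a v)
  | v, w :: l => Fm.imp (Fm.neg (ltr v (a v))) (excl a w l)

theorem isLit_ltr (v : V) (b : Bool) : IsLit (ltr v b) := by
  refine ⟨v, ?_⟩
  unfold ltr
  cases b <;> simp

theorem isClause_excl (a : V → Bool) : ∀ (l : List V) (v : V),
    IsClause (l.length + 1) (excl a v l) := by
  intro l
  induction l with
  | nil => intro v; exact IsClause.lit 0 _ (isLit_ltr _ _)
  | cons w l ih => intro v; exact IsClause.or _ _ _ (isLit_ltr _ _) (ih w)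

theorem isClause_mono {k k' : ℕ} {A : Fm V} (h : IsClause k A) (hk : k ≤ k') : IsClause k' A := by
  induction h generalizing k' with
  | lit k A hA =>
    obtain ⟨m, rfl⟩ : ∃ m, k' = m + 1 := ⟨k' - 1, by omega⟩
    exact IsClause.lit _ _ hA
  | or k A B hA hB ih =>
    obtain ⟨m, rfl⟩ : ∃ m, k' = m + 1 := ⟨k' - 1, by omega⟩
    exact IsClause.or _ _ _ hA (ih (by omega))

theorem isClause_ren {V' : Type} (f : V → V') {k : ℕ} {A : Fm V} (h : IsClause k A) :
    IsClause k (A.ren f) := by
  have hl : ∀ B : Fm V, IsLit B → IsLit (B.ren f) := by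
    rintro B ⟨v, rfl | rfl⟩
    · exact ⟨f v, Or.inl rfl⟩
    · exact ⟨f v, Or.inr rfl⟩
  induction h with
  | lit k A hA => exact IsClause.lit _ _ (hl _ hA)
  | or k A B hA hB ih => exact IsClause.or _ _ _ (hl _ hA) ih

theorem eval_ltr (v : V) (b : Bool) (x : V → Bool) : (ltr v b).eval x = true ↔ x v ≠ b := by
  unfold ltr
  cases b <;> simp [Fm.eval]

theorem eval_excl (a x : V → Bool) : ∀ (l : List V) (v : V),
    (excl a v l).eval x = true ↔ ∃ w ∈ v :: l, x w ≠ a w := by
  intro l
  induction l with
  | nil => intro v; simp [excl, eval_ltr]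
  | cons w l ih =>
    intro v
    have h := ih w
    simp only [excl, Fm.eval, Bool.not_not, Bool.or_eq_true]
    rw [eval_ltr, h]
    simp

theorem len_excl (a : V → Bool) : ∀ (l : List V) (v : V), (excl a v l).len ≤ 4 * l.length + 2 := by
  have h0 : ∀ (v : V) (b : Bool), (ltr v b).len ≤ 2 := by
    intro v b; unfold ltr; cases b <;> simp [Fm.len]
  intro l
  induction l with
  | nil => intro v; simpa [excl] using h0 v (a v)
  | cons w l ih =>
    intro v
    have h1 := ih w
    have h2 := h0 v (a v)
    simp only [excl, Fm.len, List.length_cons]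
    omega

theorem vars_excl [DecidableEq V] (a : V → Bool) : ∀ (l : List V) (v : V),
    (excl a v l).vars ⊆ (v :: l).toFinset := by
  have h0 : ∀ (v : V) (b : Bool), (ltr v b).vars = {v} := by
    intro v b; unfold ltr; cases b <;> simp [Fm.vars]
  intro l
  induction l with
  | nil => intro v; simp [excl, h0]
  | cons w l ih =>
    intro v
    simp only [excl, Fm.vars, h0]
    refine Finset.union_subset (by simp) ((ih w).trans ?_)
    intro x hx
    simp only [List.toFinset_cons, Finset.mem_insert] at hx ⊢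
    tauto

theorem eval_bigAnd (x : V → Bool) : ∀ (d : ℕ) (C : ℕ → Fm V),
    (bigAnd d C).eval x = true ↔ ∀ i < 2 ^ d, (C i).eval x = true := by
  intro d
  induction d with
  | zero => intro C; simp [bigAnd]
  | succ d ih =>
    intro C
    simp only [bigAnd, Fm.eval, Bool.not_or, Bool.not_not, Bool.and_eq_true]
    rw [ih, ih]
    constructor
    · rintro ⟨h1, h2⟩ i hi
      by_cases h : i < 2 ^ d
      · exact h1 i h
      · have := h2 (i - 2 ^ d) (by rw [pow_succ] at hi; omega)
        rwa [Nat.add_sub_cancel' (by omega)] at this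
    · intro h
      exact ⟨fun i hi => h i (by rw [pow_succ]; omega),
        fun i hi => h _ (by rw [pow_succ]; omega)⟩

theorem ren_bigAnd {V' : Type} (f : V → V') : ∀ (d : ℕ) (C : ℕ → Fm V),
    (bigAnd d C).ren f = bigAnd d fun i => (C i).ren f := by
  intro d
  induction d with
  | zero => intro C; rfl
  | succ d ih => intro C; simp only [bigAnd, Fm.ren, ih]

theorem two_pow_le_len_bigAnd : ∀ (d : ℕ) (C : ℕ → Fm V), 2 ^ d ≤ (bigAnd d C).len := by
  intro d
  induction d with
  | zero =>
    intro C
    simp only [bigAnd, pow_zero]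
    cases C 0 <;> simp [Fm.len]
  | succ d ih =>
    intro C
    have h1 := ih C
    have h2 := ih fun i => C (2 ^ d + i)
    simp only [bigAnd, Fm.len]
    rw [pow_succ]
    omega

theorem isDer_ren {V' : Type} {Sch : Set (Fm ℕ)} {Γ : Set (Fm V)} {L : ℕ} {pf : Fin L → Fm V}
    (h : IsDer Sch Γ pf) (f : V → V') :
    IsDer Sch ((fun A => A.ren f) '' Γ) (fun i => (pf i).ren f) := by
  intro i
  rcases h i with h1 | ⟨ψ, hψ, σ, h1⟩ | ⟨j, k, hj, hk, h1⟩
  · exact Or.inl ⟨pf i, h1, rfl⟩
  · refine Or.inr (Or.inl ⟨ψ, hψ, fun i => (σ i).ren f, ?_⟩)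
    show (pf i).ren f = _
    rw [h1, ren_bind]
  · refine Or.inr (Or.inr ⟨j, k, hj, hk, ?_⟩)
    show (pf k).ren f = _
    rw [h1]; rfl

theorem isDer_mono {Sch Sch' : Set (Fm ℕ)} {Γ : Set (Fm V)} {L : ℕ} {pf : Fin L → Fm V}
    (h : IsDer Sch Γ pf) (hS : Sch ⊆ Sch') : IsDer Sch' Γ pf := by
  intro i
  rcases h i with h1 | ⟨ψ, hψ, σ, h1⟩ | h1
  · exact Or.inl h1
  · exact Or.inr (Or.inl ⟨ψ, hS hψ, σ, h1⟩)
  · exact Or.inr (Or.inr h1)

end Clause

section Graph

variable {E Wv : Type} [Fintype E] [DecidableEq E] [Fintype Wv] [DecidableEq Wv]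

/-- the assignment with support `U` -/
def ind (U : Finset E) (e : E) : Bool := decide (e ∈ U)

open scoped Classical in
/-- pairs of a vertex and a forbidden assignment of its edges -/
noncomputable def Idx (src tgt : E → Wv) (v1 : Wv) : Finset (Σ _ : Wv, Finset E) :=
  (univ : Finset Wv).sigma fun v => (bd src tgt {v}).powerset.filter fun U =>
    chi (bd src tgt {v}) (ind U) ≠ sg (sgn3 v1 v)

/-- the clause of a pair -/
noncomputable def clp (src tgt : E → Wv) (v0 : E) (p : Σ _ : Wv, Finset E) : Fm E :=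
  match (bd src tgt {p.1}).toList with
  | [] => Fm.var v0
  | w :: l => excl (ind p.2) w l

variable {src tgt : E → Wv} {Δ : ℕ}

theorem clp_spec (h : ∀ w, (bd src tgt {w}).card ≤ Δ) (hne : ∀ w, (bd src tgt {w}).Nonempty)
    (v0 : E) (p : Σ _ : Wv, Finset E) :
    IsClause Δ (clp src tgt v0 p) ∧ (clp src tgt v0 p).len ≤ 4 * Δ ∧
      (clp src tgt v0 p).vars ⊆ bd src tgt {p.1} ∧
      ∀ x, (clp src tgt v0 p).eval x = true ↔ ∃ w ∈ bd src tgt {p.1}, x w ≠ ind p.2 w := by
  unfold clp
  have h1 : (bd src tgt {p.1}).toList.length = (bd src tgt {p.1}).card := Finset.length_toList _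
  have h2 := h p.1
  have h3 : (bd src tgt {p.1}).toList.toFinset = bd src tgt {p.1} := Finset.toList_toFinset _
  have h4 : ∀ w, w ∈ (bd src tgt {p.1}).toList ↔ w ∈ bd src tgt {p.1} := fun w =>
    Finset.mem_toList
  cases hl : (bd src tgt {p.1}).toList with
  | nil =>
    rw [hl] at h1
    have := Finset.card_pos.mpr (hne p.1)
    simp at h1
    omega
  | cons w l =>
    rw [hl] at h1 h3 h4
    simp only [List.length_cons] at h1
    refine ⟨isClause_mono (isClause_excl _ l w) (by omega), ?_, ?_, fun x => ?_⟩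
    · have := len_excl (ind p.2) l w
      show (excl (ind p.2) w l).len ≤ 4 * Δ
      omega
    · have := vars_excl (ind p.2) l w
      rwa [h3] at this
    · show (excl (ind p.2) w l).eval x = true ↔ _
      rw [eval_excl]
      constructor
      · rintro ⟨w', h5, h6⟩
        exact ⟨w', (h4 _).mp h5, h6⟩
      · rintro ⟨w', h5, h6⟩
        exact ⟨w', (h4 _).mpr h5, h6⟩

theorem chi_congr' {S : Finset E} {x y : E → Bool} (h : ∀ e ∈ S, x e = y e) :
    chi S x = chi S y := by
  unfold chi
  exact Finset.prod_congr rfl fun e he => by rw [h e he]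

theorem exists_Idx (v1 : Wv) (x : E → Bool) : ∃ p ∈ Idx src tgt v1,
    ∀ w ∈ bd src tgt {p.1}, x w = ind p.2 w := by
  by_contra hcon
  push Not at hcon
  have h2 : ∀ v, chi (bd src tgt {v}) x = sg (sgn3 v1 v) := by
    intro v
    by_contra h3
    obtain ⟨w, hw, h4⟩ := hcon ⟨v, (bd src tgt {v}).filter fun e => x e = true⟩ (by
      unfold Idx
      rw [Finset.mem_sigma]
      refine ⟨mem_univ _, ?_⟩
      rw [Finset.mem_filter]
      refine ⟨Finset.mem_powerset.mpr (Finset.filter_subset _ _), ?_⟩
      show chi (bd src tgt {v}) _ ≠ sg (sgn3 v1 v)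
      rw [← chi_congr' (x := x)]
      · exact h3
      · intro e he
        unfold ind
        simp only [Finset.mem_filter, he, true_and]
        cases x e <;> simp)
    apply h4
    unfold ind
    have hw' : w ∈ bd src tgt {v} := hw
    simp only [Finset.mem_filter, hw', true_and]
    cases x w <;> simp
  have h3 : chi (bd src tgt univ) x = ∏ v, chi (bd src tgt {v}) x := chi_bd _ _ univ x
  have h4 : bd src tgt univ = ∅ := by
    ext e; rw [mem_bd]; simp
  rw [h4, chi_empty, Finset.prod_congr rfl (fun v _ => h2 v)] at h3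
  have h5 : ∏ v : Wv, sg (sgn3 v1 v) = -1 := by
    rw [Finset.prod_eq_single v1]
    · simp [sgn3, sg]
    · intro v _ hv
      simp [sgn3, sg, hv]
    · intro h; exact absurd (mem_univ _) h
  rw [h5] at h3
  norm_num at h3

theorem card_Idx_le (h : ∀ w, (bd src tgt {w}).card ≤ Δ) (v1 : Wv) :
    (Idx src tgt v1).card ≤ Fintype.card Wv * 2 ^ Δ := by
  unfold Idx
  rw [Finset.card_sigma]
  calc ∑ v : Wv, _ ≤ ∑ _v : Wv, 2 ^ Δ := by
        refine Finset.sum_le_sum fun v _ => ?_
        refine (Finset.card_filter_le _ _).trans ?_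
        rw [Finset.card_powerset]
        exact Nat.pow_le_pow_right (by norm_num) (h v)
    _ = _ := by simp

theorem le_card_Idx (hne : ∀ w, (bd src tgt {w}).Nonempty) (v1 : Wv) :
    Fintype.card Wv ≤ (Idx src tgt v1).card := by
  unfold Idx
  rw [Finset.card_sigma]
  calc Fintype.card Wv = ∑ _v : Wv, 1 := by simp
    _ ≤ _ := by
        refine Finset.sum_le_sum fun v _ => ?_
        rw [Nat.one_le_iff_ne_zero, Finset.card_ne_zero]
        obtain ⟨e, he⟩ := hne v
        by_cases h1 : chi (bd src tgt {v}) (ind (∅ : Finset E)) = sg (sgn3 v1 v)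
        · refine ⟨{e}, ?_⟩
          rw [Finset.mem_filter]
          refine ⟨Finset.mem_powerset.mpr (by simpa using he), ?_⟩
          have h2 : chi (bd src tgt {v}) (ind ({e} : Finset E))
              = - chi (bd src tgt {v}) (ind (∅ : Finset E)) := by
            unfold chi
            rw [← Finset.mul_prod_erase _ _ he, ← Finset.mul_prod_erase _ _ he]
            have h3 : ∏ i ∈ (bd src tgt {v}).erase e, sg (ind ({e} : Finset E) i)
                = ∏ i ∈ (bd src tgt {v}).erase e, sg (ind (∅ : Finset E) i) := by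
              refine Finset.prod_congr rfl fun i hi => ?_
              have : i ≠ e := (Finset.mem_erase.mp hi).1
              simp [ind, this]
            rw [h3]
            simp [ind, sg]
          rw [h2, h1]
          unfold sg
          split_ifs <;> norm_num
        · exact ⟨∅, by rw [Finset.mem_filter]; exact ⟨Finset.empty_mem_powerset _, h1⟩⟩

end Graph

end Pool.Agent.H3.Frg4
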