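import Mathlib
import Pool.Agent.H3.Frg4.Cnf
import Pool.Agent.H3.Frg3.QFinal

set_option autoImplicit false
set_option linter.unusedSectionVars false

/-!
# The bound for one CNF
-/

namespace Pool.Agent.H3.Frg4

open Finset Filter Topology Pool.Agent.H3.Frg Pool.Agent.H3.Frg2 Pool.Agent.H3.Frg3

theorem clen_le {V : Type} (c : ℕ) (l : List (Fm V)) (h : ∀ A ∈ l, A.len ≤ c) :
    clen l ≤ l.length * (c + 1) := by
  induction l with
  | nil => simp [clen]
  | cons A l ih =>
    have h1 := h A (by simp)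
    have h2 := ih fun B hB => h B (by simp [hB])
    have h3 : (A :: l).length * (c + 1) = l.length * (c + 1) + (c + 1) := by
      simp only [List.length_cons]; ring
    have h4 : clen (A :: l) = A.len + 1 + clen l := by simp [clen]
    omega

theorem fixedC {J n k Dm : ℕ} (hJD : dgf J ≤ Dm) (hn1 : 1000 ≤ n) :
    ∃ (d : ℕ) (C : ℕ → Fm ℕ), (∀ i, IsClause Dm (C i)) ∧
      (∀ x, (Fm.neg (bigAnd d C)).eval x = true) ∧
      n ≤ (Fm.neg (bigAnd d C)).enc.length ∧
      2 ^ d ≤ 2 * (n * ((k + 1) * 2 ^ k) ^ J * 2 ^ Dm) ∧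
      (Fm.neg (bigAnd d C)).enc.length ≤
        (n * ((k + 1) * 2 ^ k) ^ J * (2 ^ Dm * (8 * Dm + 8)) + 4) *
        (2 * Nat.size (Dm * (n * ((k + 1) * 2 ^ k) ^ J)) + 2) ∧
      ∀ (t X kt Mt K s ℓ cnt : ℕ) (u0 η : ℝ), Nq J n k t X Dm kt (Dm + 1) Mt K s ℓ cnt u0 η →
        ∀ Sch : Set (Fm ℕ), (∀ ψ ∈ Sch, ∀ x : ℕ → Bool, ψ.eval x = true) →
        (∀ ψ ∈ Sch, ψ.len ≤ ℓ) → Tau (2 * Dm + 20) (24 * Dm ^ 2 + 4 * Dm + 20) ⊆ Sch →
        ∀ (L : ℕ) (pf : Fin L → Fm ℕ), IsDer Sch (Set.range C) pf →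
        (∃ i, pf i = Fm.neg (bigAnd d C)) → ∀ s0 : ℕ, (∀ i, (pf i).len ≤ s0) →
        12 * (n * ((k + 1) * 2 ^ k) ^ J * (24 * Dm ^ 2 + 1) + s0 +
          n * ((k + 1) * 2 ^ k) ^ J * (2 ^ Dm * (8 * Dm + 8))) + 60 ≤ s →
        cnt < (L + 2 * (2 * (n * ((k + 1) * 2 ^ k) ^ J * 2 ^ Dm)) + 2) *
          (6 * (n * ((k + 1) * 2 ^ k) ^ J) + 7) := by
  classical
  obtain ⟨E, Wv, iE, iD, iW, iDW, src, tgt, hG, hcW, hcE, hlev⟩ :=
    tower (J := J) (n := n) (k := k) (Dm := Dm) hJD hn1 J le_rfl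
  have hDm : 80 ≤ Dm := (one_le_dgf J).trans hJD
  have hkk : 1 ≤ (k + 1) * 2 ^ k := Nat.mul_pos (by omega) (by positivity)
  have hnW : n ≤ Fintype.card Wv := by
    rw [hcW]; exact Nat.le_mul_of_pos_right _ (Nat.pow_pos hkk)
  have hneW : Nonempty Wv := Fintype.card_pos_iff.mp (by omega)
  obtain ⟨v1⟩ := hneW
  have hne : ∀ v, (bd src tgt {v}).Nonempty := by
    intro v
    rw [Finset.nonempty_iff_ne_empty]
    intro h0
    have h1 := hG.cheeger {v}
    rw [h0, Finset.card_empty, mul_zero, Finset.card_singleton] at h1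
    have : min 1 (Fintype.card Wv - 1) = 1 := min_eq_left (by omega)
    omega
  obtain ⟨v0, -⟩ := hne v1
  have hdeg : ∀ v, (bd src tgt {v}).card ≤ Dm := fun v => (hG.deg v).trans hJD
  -- the clauses
  obtain ⟨P, hP⟩ : ∃ P, P = Idx src tgt v1 := ⟨_, rfl⟩
  have hPle : P.card ≤ Fintype.card Wv * 2 ^ Dm := by rw [hP]; exact card_Idx_le hdeg v1
  have hleP : Fintype.card Wv ≤ P.card := by rw [hP]; exact le_card_Idx hne v1
  have hP0 : 1 ≤ P.card := by omega
  set φ := P.equivFin with hφ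
  set idx : ℕ → (Σ _ : Wv, Finset E) := fun i =>
    ((φ.symm (if h : i < P.card then ⟨i, h⟩ else ⟨0, hP0⟩) : P) : Σ _ : Wv, Finset E) with hidx
  have hidxP : ∀ i, idx i ∈ P := fun i => (φ.symm _).2
  have hidxS : ∀ p ∈ P, ∃ i < P.card, idx i = p := by
    intro p hp
    refine ⟨(φ ⟨p, hp⟩ : ℕ), (φ ⟨p, hp⟩).isLt, ?_⟩
    rw [hidx]
    simp
  set C0 : ℕ → Fm E := fun i => clp src tgt v0 (idx i) with hC0
  have hsp := fun i => clp_spec hdeg hne v0 (idx i)
  obtain ⟨d, hd⟩ : ∃ d, d = Nat.clog 2 P.card := ⟨_, rfl⟩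
  have hd1 : P.card ≤ 2 ^ d := by rw [hd]; exact Nat.le_pow_clog (by norm_num) _
  have hd2 : 2 ^ d ≤ 2 * P.card := by
    rcases Nat.lt_or_ge 1 P.card with h | h
    · have h3 : 2 ^ (Nat.clog 2 P.card - 1) < P.card := by
        have := Nat.pow_pred_clog_lt_self (b := 2) (by norm_num) h
        simpa using this
      have h4 : 0 < Nat.clog 2 P.card := Nat.clog_pos (by norm_num) h
      calc 2 ^ d = 2 * 2 ^ (Nat.clog 2 P.card - 1) := by
            rw [hd, ← pow_succ']; congr 1; omega
        _ ≤ 2 * P.card := by omega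
    · have h3 : P.card = 1 := by omega
      rw [hd, h3]
      simp
  -- variables in ℕ
  set ψ := Fintype.equivFin E with hψ
  set f : E → ℕ := fun v => (ψ v : ℕ) with hf
  have hfB : ∀ v, f v < Fintype.card E := fun v => (ψ v).isLt
  set g : ℕ → E := fun i => if h : i < Fintype.card E then ψ.symm ⟨i, h⟩ else v0 with hg
  have hgf : ∀ v, g (f v) = v := by
    intro v
    have h1 : f v < Fintype.card E := (ψ v).isLt
    rw [hg]
    simp only [h1, dif_pos]
    exact ψ.symm_apply_apply v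
  have hK : ∀ x, (bigAnd d C0).eval x = false := by
    intro x
    by_contra h1
    rw [Bool.not_eq_false, eval_bigAnd] at h1
    obtain ⟨p, hp, h2⟩ := exists_Idx (src := src) (tgt := tgt) v1 x
    rw [← hP] at hp
    obtain ⟨i, hi, h3⟩ := hidxS p hp
    have h4 := h1 i (lt_of_lt_of_le hi hd1)
    rw [hC0] at h4
    simp only at h4
    rw [(hsp i).2.2.2 x] at h4
    obtain ⟨w, hw, h5⟩ := h4
    rw [h3] at hw h5
    exact h5 (h2 w hw)
  have hren : ∀ d', (Fm.neg (bigAnd d' C0)).ren f
      = Fm.neg (bigAnd d' fun i => (C0 i).ren f) := fun d' => by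
    show Fm.neg ((bigAnd d' C0).ren f) = _
    rw [ren_bigAnd]
  have hlenC : ∀ i, (C0 i).len ≤ 4 * Dm := fun i => (hsp i).2.1
  have hlenK := len_bigAnd (4 * Dm) d C0 hlenC
  have h2d : 2 ^ d ≤ 2 * (Fintype.card Wv * 2 ^ Dm) := hd2.trans (Nat.mul_le_mul_left _ hPle)
  have hKd : 2 ^ d * (4 * Dm + 3) ≤ Fintype.card Wv * (2 ^ Dm * (8 * Dm + 8)) := by
    calc 2 ^ d * (4 * Dm + 3) ≤ 2 * (Fintype.card Wv * 2 ^ Dm) * (4 * Dm + 3) :=
          Nat.mul_le_mul_right _ h2d
      _ = Fintype.card Wv * (2 ^ Dm * (8 * Dm + 6)) := by ring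
      _ ≤ _ := Nat.mul_le_mul_left _ (Nat.mul_le_mul_left _ (by omega))
  refine ⟨d, fun i => (C0 i).ren f, fun i => isClause_ren f (hsp i).1, fun x => ?_, ?_, ?_, ?_, ?_⟩
  · rw [← hren, eval_ren]
    show (!(bigAnd d C0).eval _) = true
    rw [hK]; rfl
  · rw [← hren]
    refine le_trans ?_ (len_le_enc _)
    rw [len_ren]
    show n ≤ (bigAnd d C0).len + 1
    have := two_pow_le_len_bigAnd d C0
    omega
  · rw [← hcW]; exact h2d
  · rw [← hren]
    refine (enc_le f _ hfB _).trans ?_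
    rw [← hcW]
    refine Nat.mul_le_mul ?_ ?_
    · show (bigAnd d C0).len + 1 ≤ _
      omega
    · have h1 : Nat.size (Fintype.card E) ≤ Nat.size (Dm * Fintype.card Wv) := by
        refine Nat.size_le_size (hcE.trans ?_)
        rw [hcW]
        exact Nat.mul_le_mul_right _ hJD
      omega
  · intro t X kt Mt K s ℓ cnt u0 η hN Sch htaut hlen hTau L pf hpf hfin s0 hs0 hs
    rw [← hcW] at hs ⊢
    by_contra hL
    push Not at hL
    obtain ⟨fam, hfM, hfK, hlv⟩ := hlev t X kt (Dm + 1) Mt K s ℓ cnt u0 η hN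
    rw [Nat.sub_self, pow_zero, pow_zero, mul_one, mul_one, mul_one] at hlv
    have ht1 := hN.t1
    have htkt : t ≤ kt := by
      refine le_trans ?_ hN.k1
      exact Nat.le_mul_of_pos_right _ (by omega)
    have hσ : 16 ≤ 4 * t * 2 ^ t := by
      calc 16 ≤ 4 * t * 1 := by omega
        _ ≤ 4 * t * 2 ^ t := Nat.mul_le_mul_left _ Nat.one_le_two_pow
    have hK1 : 1 ≤ fam.K := by
      rw [hfK]
      refine le_trans ?_ hN.p1
      exact Nat.mul_pos (by omega) (Nat.mul_pos (by omega) (by omega))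
    -- the simulation
    have hSim : Sim Sch := sim_of (by omega) (by omega) hTau
    have hpf1 : IsDer Sch (Set.range C0) (fun i => (pf i).ren g) := by
      have h1 := isDer_ren hpf g
      have h2 : (fun A : Fm ℕ => A.ren g) '' Set.range (fun i => (C0 i).ren f)
          = Set.range C0 := by
        rw [← Set.range_comp]
        congr 1
        funext i
        show ((C0 i).ren f).ren g = C0 i
        rw [ren_ren]
        simp only [hgf]
        exact ren_id _
      rwa [h2] at h1
    have hfin1 : ∃ i, (pf i).ren g = Fm.neg (bigAnd d C0) := by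
      obtain ⟨i, hi⟩ := hfin
      refine ⟨i, ?_⟩
      rw [hi, ← hren, ren_ren]
      simp only [hgf]
      exact ren_id _
    have hAsl : (axl3 src tgt Dm v0 v1).length = Fintype.card Wv := by
      rw [axl3, List.length_map, Finset.length_toList, Finset.card_univ]
    have hcl : clen (axl3 src tgt Dm v0 v1) ≤ Fintype.card Wv * (24 * Dm ^ 2 + 1) := by
      have h1 := clen_le (24 * Dm ^ 2) (axl3 src tgt Dm v0 v1) (fun A hA => by
        rw [axl3, List.mem_map] at hA
        obtain ⟨v, _, rfl⟩ := hA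
        exact len_parAx v0 Dm (by omega) _ _)
      rwa [hAsl] at h1
    obtain ⟨L', pf', h1, h2, h3, h4⟩ := simul (s := s) hSim (axl3 src tgt Dm v0 v1) v0
      (c := 4 * Dm) (d := d) (s0 := s0) C0 hlenC (fun i => by
        have h1 := hidxP i
        rw [hP] at h1
        unfold Idx at h1
        rw [Finset.mem_sigma, Finset.mem_filter] at h1
        obtain ⟨-, h2, h3⟩ := h1
        refine ⟨axm3 src tgt Dm v0 v1 (idx i).1, ?_, ?_⟩
        · rw [axl3, List.mem_map]
          exact ⟨(idx i).1, by simp, rfl⟩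
        · obtain ⟨ψ', h5, h6⟩ := inst_Tau (m := 2 * Dm + 20)
            (ℓ := 24 * Dm ^ 2 + 4 * Dm + 20) v0
            (Fm.imp (axm3 src tgt Dm v0 v1 (idx i).1) (C0 i)) (fun x => by
              simp only [Fm.eval, Bool.or_eq_true, Bool.not_eq_true']
              by_cases h7 : (axm3 src tgt Dm v0 v1 (idx i).1).eval x = true
              · right
                rw [eval_axm3 hdeg] at h7
                rw [hC0]
                simp only
                rw [(hsp i).2.2.2 x]
                by_contra h8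
                push Not at h8
                rw [chi_congr' h8] at h7
                exact h3 h7
              · left; simpa using h7) (by
              have e1 : (axm3 src tgt Dm v0 v1 (idx i).1).vars ⊆
                insert v0 (bd src tgt {(idx i).1}) := vars_parAx _ _ _ _
              have e2 := Finset.card_le_card e1
              have e3 := Finset.card_insert_le v0 (bd src tgt {(idx i).1})
              have e4 := hdeg (idx i).1
              have e5 := Finset.card_le_card (hsp i).2.2.1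
              have e6 := Finset.card_union_le (axm3 src tgt Dm v0 v1 (idx i).1).vars (C0 i).vars
              show ((axm3 src tgt Dm v0 v1 (idx i).1).vars ∪ (C0 i).vars).card ≤ _
              have e7 : (C0 i).vars.card ≤ (bd src tgt {(idx i).1}).card := e5
              omega) (by
              have e1 := len_parAx v0 Dm (by omega) (bd src tgt {(idx i).1})
                (sgn3 v1 (idx i).1)
              have e2 := hlenC i
              show (axm3 src tgt Dm v0 v1 (idx i).1).len + (C0 i).len + 1 ≤ _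
              have e3 : (axm3 src tgt Dm v0 v1 (idx i).1).len ≤ 24 * Dm ^ 2 := e1
              omega)
          exact ⟨ψ', hTau h5, h6⟩)
      (fun i => (pf i).ren g) hpf1 (fun i => by rw [len_ren]; exact hs0 i) hfin1 (by omega)
    refine lev_top fam hlv (by omega) ht1 hσ hK1 v0 (ε := fun v => sg (sgn3 v1 v))
      (fun v => sg_mul_self _) htaut hlen pf' h2 h3 ?_ (axl3 src tgt Dm v0 v1)
      (axl3_spec hdeg v0 v1) h4
    refine h1.trans (le_trans ?_ hL)
    rw [hAsl]
    exact Nat.mul_le_mul (by omega) (by omega)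

end Pool.Agent.H3.Frg4
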