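import Mathlib
import Pool.Agent.H3.Frg4.FixedC

set_option autoImplicit false
set_option linter.unusedSectionVars false

/-!
# Final assembly: proofs of negated k-CNFs and refutations of k-CNFs
-/

namespace Pool.Agent.H3.Frg4

open Finset Filter Topology Pool.Agent.H3.Frg Pool.Agent.H3.Frg2 Pool.Agent.H3.Frg3

theorem eventually_sizeG (J q Dm K0 : ℕ) : ∀ᶠ t : ℕ in atTop,
    ((4 ^ t) ^ (2 * q) * ((2 * q * t + 1) * 2 ^ (2 * q * t)) ^ J * K0 + K0) *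
        (2 * Nat.size (Dm * ((4 ^ t) ^ (2 * q) * ((2 * q * t + 1) * 2 ^ (2 * q * t)) ^ J)) + 2)
      ≤ (4 ^ t) ^ (2 * q + q * J + 1) := by
  obtain ⟨A, hA⟩ : ∃ A, A = 2 * q + q * J + 1 := ⟨_, rfl⟩
  filter_upwards [eventually_poly (Dm * (2 * q + 1) ^ J) J,
    eventually_poly (((2 * q + 1) ^ J * K0 + K0) * (4 * A + 4)) (J + 1),
    eventually_ge_atTop 1] with t h1 h2 h3
  obtain ⟨Q, hQ⟩ : ∃ Q, Q = 4 ^ t := ⟨_, rfl⟩
  have hQ1 : 1 ≤ Q := by rw [hQ]; exact Nat.one_le_pow _ _ (by norm_num)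
  have h2k : 2 ^ (2 * q * t) = Q ^ q := by
    rw [hQ, ← pow_mul, show (4:ℕ) = 2 ^ 2 by norm_num, ← pow_mul]
    congr 1; ring
  obtain ⟨P, hP⟩ : ∃ P, P = (2 * q * t + 1) ^ J := ⟨_, rfl⟩
  have hPle : P ≤ (2 * q + 1) ^ J * t ^ J := by
    rw [hP, ← mul_pow]
    exact Nat.pow_le_pow_left (by nlinarith) _
  obtain ⟨N, hN⟩ : ∃ N, N = (4 ^ t) ^ (2 * q) * ((2 * q * t + 1) * 2 ^ (2 * q * t)) ^ J :=
    ⟨_, rfl⟩
  have hN' : N = Q ^ (2 * q + q * J) * P := by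
    rw [hN, h2k, ← hQ, hP, mul_pow, ← pow_mul]
    ring
  rw [← hN]
  rw [← hQ] at h1 h2 ⊢
  have hsz : Nat.size (Dm * N) ≤ 2 * t * A + 1 := by
    rw [Nat.size_le]
    have h4 : Dm * N ≤ Q ^ A := by
      calc Dm * N = Q ^ (2 * q + q * J) * (Dm * P) := by rw [hN']; ring
        _ ≤ Q ^ (2 * q + q * J) * Q := Nat.mul_le_mul_left _ (by
            refine le_trans (Nat.mul_le_mul_left _ hPle) ?_
            rw [← mul_assoc]; exact h1)
        _ = Q ^ A := by rw [hA, pow_succ]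
    have h5 : Q ^ A = 2 ^ (2 * t * A) := by
      rw [hQ, ← pow_mul, show (4:ℕ) = 2 ^ 2 by norm_num, ← pow_mul]
      congr 1; ring
    rw [h5] at h4
    refine lt_of_le_of_lt h4 ?_
    exact Nat.pow_lt_pow_right (by norm_num) (by omega)
  have hQp : 1 ≤ Q ^ (2 * q + q * J) := Nat.one_le_pow _ _ hQ1
  have htJ : 1 ≤ t ^ J := Nat.one_le_pow _ _ h3
  calc (N * K0 + K0) * (2 * Nat.size (Dm * N) + 2)
      ≤ (Q ^ (2 * q + q * J) * (((2 * q + 1) ^ J * K0 + K0) * t ^ J)) *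
        ((4 * A + 4) * t) := by
        refine Nat.mul_le_mul ?_ ?_
        · rw [hN']
          have e1 : Q ^ (2 * q + q * J) * P * K0
              ≤ Q ^ (2 * q + q * J) * ((2 * q + 1) ^ J * t ^ J) * K0 :=
            Nat.mul_le_mul_right _ (Nat.mul_le_mul_left _ hPle)
          have e2 : K0 ≤ Q ^ (2 * q + q * J) * (K0 * t ^ J) := by
            calc K0 = 1 * (K0 * 1) := by ring
              _ ≤ _ := Nat.mul_le_mul hQp (Nat.mul_le_mul_left _ htJ)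
          calc _ ≤ Q ^ (2 * q + q * J) * ((2 * q + 1) ^ J * t ^ J) * K0 +
                Q ^ (2 * q + q * J) * (K0 * t ^ J) := Nat.add_le_add e1 e2
            _ = _ := by ring
        · calc 2 * Nat.size (Dm * N) + 2 ≤ 2 * (2 * t * A + 1) + 2 := by omega
            _ = 4 * A * t + 4 := by ring
            _ ≤ 4 * A * t + 4 * t := by omega
            _ = _ := by ring
    _ = Q ^ (2 * q + q * J) * (((2 * q + 1) ^ J * K0 + K0) * (4 * A + 4) *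
        t ^ (J + 1)) := by rw [pow_succ]; ring
    _ ≤ Q ^ (2 * q + q * J) * Q := Nat.mul_le_mul_left _ h2
    _ = Q ^ (2 * q + q * J + 1) := by rw [pow_succ]

/-- the bound on the number of lines -/
theorem finalC0 (θ : ℝ) (hθ : θ < 2) :
    ∃ (k : ℕ) (c : ℝ), 0 < c ∧ ∃ (d : ℕ → ℕ) (C : ℕ → ℕ → Fm ℕ) (τ : ℕ → Fm ℕ),
      (∀ n, τ n = Fm.neg (bigAnd (d n) (C n))) ∧
      (∀ n i, IsClause k (C n i)) ∧
      (∀ n x, (τ n).eval x = true) ∧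
      Tendsto (fun n => (τ n).enc.length) atTop atTop ∧
      ∀ Sch : Set (Fm ℕ), Sch.Finite → (∀ ψ ∈ Sch, ∀ x, ψ.eval x = true) →
        ∀ᶠ n in atTop, ∀ (L : ℕ) (pf : Fin L → Fm ℕ), IsDer Sch (Set.range (C n)) pf →
          (∃ i, pf i = τ n) →
          (∀ i, ((pf i).enc.length : ℝ) ≤ ((τ n).enc.length : ℝ) ^ θ) →
          ((τ n).enc.length : ℝ) ^ (c * Real.log ((τ n).enc.length : ℝ)) ≤ L := by
  obtain ⟨θ', hθ'⟩ : ∃ θ' : ℝ, θ' = max θ 1 := ⟨_, rfl⟩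
  have hθ1 : 1 ≤ θ' := by rw [hθ']; exact le_max_right _ _
  have hθθ : θ ≤ θ' := by rw [hθ']; exact le_max_left _ _
  have hθ2 : θ' < 2 := by rw [hθ']; exact max_lt hθ (by norm_num)
  obtain ⟨J, hJ⟩ : ∃ J : ℕ, J = ⌈2 / (2 - θ')⌉₊ := ⟨_, rfl⟩
  obtain ⟨γ, hγ⟩ : ∃ γ : ℝ, γ = (2 * (J:ℝ) + 2) - ((J:ℝ) + 2) * θ' := ⟨_, rfl⟩
  have hγ0 : 0 < γ := by
    have h1 : 2 / (2 - θ') ≤ J := by rw [hJ]; exact Nat.le_ceil _
    have h2 : 0 < 2 - θ' := by linarith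
    rw [div_le_iff₀ h2] at h1
    rw [hγ]
    nlinarith
  obtain ⟨Dm, hDm⟩ : ∃ Dm, Dm = dgf J := ⟨_, rfl⟩
  have hD80 : 80 ≤ Dm := by rw [hDm]; exact one_le_dgf J
  obtain ⟨p, hp⟩ : ∃ p, p = 4 * Dm * (Dm + 1) + 1 := ⟨_, rfl⟩
  obtain ⟨q, hq⟩ : ∃ q : ℕ, q = ⌈((J:ℝ) * p + 4) / γ⌉₊ + p := ⟨_, rfl⟩
  have hp1 : 1 ≤ p := by omega
  have hpq : p < 2 * q := by omega
  have hq1 : 1 ≤ q := by omega
  have hqγ : (J:ℝ) * p + 4 ≤ γ * q := by
    have h1 : ((J:ℝ) * p + 4) / γ ≤ q := by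
      refine (Nat.le_ceil _).trans ?_
      rw [hq]; push_cast
      have : (0:ℝ) ≤ p := by positivity
      linarith
    rw [div_le_iff₀ hγ0] at h1
    linarith
  obtain ⟨A, hA⟩ : ∃ A : ℕ, A = 2 * q + q * J + 1 := ⟨_, rfl⟩
  obtain ⟨B, hB⟩ : ∃ B : ℕ, B = J * (2 * q - p) + 2 * q - 1 := ⟨_, rfl⟩
  have hB1 : 1 ≤ B := by omega
  have hBR : (B:ℝ) = J * (2 * q - p) + 2 * q - 1 := by
    have h1 : B + 1 = J * (2 * q - p) + 2 * q := by omega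
    have h2 : ((B + 1 : ℕ) : ℝ) = ((J * (2 * q - p) + 2 * q : ℕ) : ℝ) := by rw [h1]
    rw [Nat.cast_add, Nat.cast_add, Nat.cast_mul, Nat.cast_sub hpq.le] at h2
    push_cast at h2
    linarith
  have hAθ : (A:ℝ) * θ' ≤ ((B - 1 : ℕ) : ℝ) := by
    rw [Nat.cast_sub hB1, hBR, hA]
    push_cast
    have h1 : (2 * (q:ℝ) + q * J + 1) * θ' = q * (2 * J + 2) - γ * q + θ' := by
      rw [hγ]; ring
    rw [h1]
    nlinarith
  have hAB : A ≤ B - 1 := by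
    have h1 : (A:ℝ) ≤ (A:ℝ) * θ' := by
      have : (0:ℝ) ≤ A := by positivity
      nlinarith
    exact_mod_cast h1.trans hAθ
  have hA0 : (0:ℝ) < A := by rw [hA]; positivity
  have hch : ∀ n : ℕ, ∃ (d : ℕ) (C : ℕ → Fm ℕ), (∀ i, IsClause Dm (C i)) ∧
      (∀ x, (Fm.neg (bigAnd d C)).eval x = true) ∧
      (4 ^ (n + 5)) ^ (2 * q) ≤ (Fm.neg (bigAnd d C)).enc.length ∧
      2 ^ d ≤ 2 * ((4 ^ (n + 5)) ^ (2 * q) * ((2 * q * (n + 5) + 1) *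
        2 ^ (2 * q * (n + 5))) ^ J * 2 ^ Dm) ∧
      (Fm.neg (bigAnd d C)).enc.length ≤
        ((4 ^ (n + 5)) ^ (2 * q) * ((2 * q * (n + 5) + 1) *
        2 ^ (2 * q * (n + 5))) ^ J * (2 ^ Dm * (8 * Dm + 8)) + 4) *
        (2 * Nat.size (Dm * ((4 ^ (n + 5)) ^ (2 * q) * ((2 * q * (n + 5) + 1) *
        2 ^ (2 * q * (n + 5))) ^ J)) + 2) ∧
      ∀ (t X kt Mt K s ℓ cnt : ℕ) (u0 η : ℝ),
        Nq J ((4 ^ (n + 5)) ^ (2 * q)) (2 * q * (n + 5)) t X Dm kt (Dm + 1) Mt K s ℓ cnt u0 η →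
        ∀ Sch : Set (Fm ℕ), (∀ ψ ∈ Sch, ∀ x : ℕ → Bool, ψ.eval x = true) →
        (∀ ψ ∈ Sch, ψ.len ≤ ℓ) → Tau (2 * Dm + 20) (24 * Dm ^ 2 + 4 * Dm + 20) ⊆ Sch →
        ∀ (L : ℕ) (pf : Fin L → Fm ℕ), IsDer Sch (Set.range C) pf →
        (∃ i, pf i = Fm.neg (bigAnd d C)) → ∀ s0 : ℕ, (∀ i, (pf i).len ≤ s0) →
        12 * ((4 ^ (n + 5)) ^ (2 * q) * ((2 * q * (n + 5) + 1) *
          2 ^ (2 * q * (n + 5))) ^ J * (24 * Dm ^ 2 + 1) + s0 +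
          (4 ^ (n + 5)) ^ (2 * q) * ((2 * q * (n + 5) + 1) *
          2 ^ (2 * q * (n + 5))) ^ J * (2 ^ Dm * (8 * Dm + 8))) + 60 ≤ s →
        cnt < (L + 2 * (2 * ((4 ^ (n + 5)) ^ (2 * q) * ((2 * q * (n + 5) + 1) *
          2 ^ (2 * q * (n + 5))) ^ J * 2 ^ Dm)) + 2) *
          (6 * ((4 ^ (n + 5)) ^ (2 * q) * ((2 * q * (n + 5) + 1) *
          2 ^ (2 * q * (n + 5))) ^ J) + 7) := fun n =>
    fixedC (by rw [hDm]) (by
      calc 1000 ≤ 4 ^ 5 := by norm_num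
        _ ≤ 4 ^ (n + 5) := Nat.pow_le_pow_right (by norm_num) (by omega)
        _ ≤ (4 ^ (n + 5)) ^ (2 * q) := Nat.le_self_pow (by omega) _)
  choose d C hC1 hC2 hC3 hC4 hC5 hC6 using hch
  obtain ⟨τ, hτ⟩ : ∃ τ : ℕ → Fm ℕ, τ = fun n => Fm.neg (bigAnd (d n) (C n)) := ⟨_, rfl⟩
  have hτn : ∀ n, Fm.neg (bigAnd (d n) (C n)) = τ n := fun n => by rw [hτ]
  simp only [hτn] at hC2 hC3 hC5 hC6
  refine ⟨Dm, 1 / (8 * (A:ℝ) ^ 2), by positivity, d, C, τ, fun n => (hτn n).symm, hC1, hC2,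
    ?_, ?_⟩
  · refine tendsto_atTop_mono (fun n => ?_) tendsto_id
    refine le_trans ?_ (hC3 n)
    calc n ≤ n + 5 := by omega
      _ ≤ 4 ^ (n + 5) := (Nat.lt_pow_self (by norm_num)).le
      _ ≤ (4 ^ (n + 5)) ^ (2 * q) := Nat.le_self_pow (by omega) _
  · intro Sch0 hfin0 htaut0
    obtain ⟨Sch, hSch⟩ : ∃ Sch, Sch = Sch0 ∪ Tau (2 * Dm + 20) (24 * Dm ^ 2 + 4 * Dm + 20) :=
      ⟨_, rfl⟩
    have hfin : Sch.Finite := by rw [hSch]; exact hfin0.union (finite_Tau _ _)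
    have hTauS : Tau (2 * Dm + 20) (24 * Dm ^ 2 + 4 * Dm + 20) ⊆ Sch := by
      rw [hSch]; exact Set.subset_union_right
    have hS0 : Sch0 ⊆ Sch := by rw [hSch]; exact Set.subset_union_left
    have htaut : ∀ ψ ∈ Sch, ∀ x, ψ.eval x = true := by
      intro ψ hψ x
      rw [hSch] at hψ
      rcases hψ with h | h
      · exact htaut0 ψ h x
      · exact h.1 x
    obtain ⟨ℓ, hℓ⟩ : ∃ ℓ : ℕ, ∀ ψ ∈ Sch, ψ.len ≤ ℓ := by
      obtain ⟨ℓ, hℓ⟩ := (hfin.image Fm.len).bddAbove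
      exact ⟨ℓ, fun ψ hψ => hℓ (Set.mem_image_of_mem _ hψ)⟩
    obtain ⟨K0, hK0⟩ : ∃ K0, K0 = 2 ^ Dm * (8 * Dm + 8) + 24 * Dm ^ 2 + 100 := ⟨_, rfl⟩
    have hshift : Tendsto (fun n : ℕ => n + 5) atTop atTop := tendsto_add_atTop_nat 5
    filter_upwards [hshift.eventually (eventually_sizeG J q Dm K0),
      hshift.eventually (nq_exists J Dm q p ℓ (by rw [hDm]) hD80 (by omega) hpq),
      eventually_ge_atTop (8 * A + 2)]
      with n h1 h2 hnA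
    intro L pf hpf hex hlines
    obtain ⟨K, kt, Mt, hNq⟩ := h2
    obtain ⟨t, ht⟩ : ∃ t, t = n + 5 := ⟨_, rfl⟩
    have htA : 8 * A + 2 ≤ t := by omega
    obtain ⟨i1, hi1⟩ := hex
    have hL1 : 1 ≤ L := by have := i1.isLt; omega
    have hm4 := hC6 n _ _ _ _ _ _ _ _ _ _ hNq Sch htaut hℓ hTauS L pf (isDer_mono hpf hS0)
      ⟨i1, hi1⟩
    have hm5 := hC5 n
    rw [← ht] at h1 hm4 hm5
    obtain ⟨N, hN⟩ : ∃ N, N = (4 ^ t) ^ (2 * q) * ((2 * q * t + 1) * 2 ^ (2 * q * t)) ^ J :=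
      ⟨_, rfl⟩
    rw [← hN] at h1 hm4 hm5
    rw [← hA] at h1
    rw [← hB] at hm4
    obtain ⟨Q, hQ⟩ : ∃ Q, Q = 4 ^ t := ⟨_, rfl⟩
    rw [← hQ] at h1 hm4
    have hQ1 : 1 ≤ Q := by rw [hQ]; exact Nat.one_le_pow _ _ (by norm_num)
    have hQ84 : 84 ≤ Q := by
      calc 84 ≤ 4 ^ 4 := by norm_num
        _ ≤ 4 ^ t := Nat.pow_le_pow_right (by norm_num) (by omega)
        _ = Q := hQ.symm
    have hQR : (1:ℝ) ≤ Q := by exact_mod_cast hQ1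
    have hQ0 : (0:ℝ) < Q := by linarith
    have hNK : N * K0 + K0 ≤ Q ^ A := by
      refine le_trans ?_ h1
      exact Nat.le_mul_of_pos_right _ (by omega)
    have hm3 : (τ n).enc.length ≤ Q ^ A := by
      refine hm5.trans (le_trans (Nat.mul_le_mul_right _ ?_) h1)
      rw [hK0]
      have : N * (2 ^ Dm * (8 * Dm + 8)) ≤ N * (2 ^ Dm * (8 * Dm + 8) + 24 * Dm ^ 2 + 100) :=
        Nat.mul_le_mul_left _ (by omega)
      omega
    have hxle : ((τ n).enc.length : ℝ) ≤ (Q:ℝ) ^ A := by exact_mod_cast hm3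
    have hx1 : (1:ℝ) ≤ ((τ n).enc.length : ℝ) := by
      have h3 : 1 ≤ (4 ^ (n + 5)) ^ (2 * q) := Nat.one_le_pow _ _ (by positivity)
      exact_mod_cast h3.trans (hC3 n)
    have hlen : ∀ i, (pf i).len ≤ Q ^ (B - 1) := by
      intro i
      have e2 : ((pf i).len : ℝ) ≤ (Q:ℝ) ^ (B - 1) := by
        calc ((pf i).len : ℝ) ≤ ((pf i).enc.length : ℝ) := by exact_mod_cast len_le_enc _
          _ ≤ ((τ n).enc.length : ℝ) ^ θ := hlines i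
          _ ≤ ((τ n).enc.length : ℝ) ^ θ' := Real.rpow_le_rpow_of_exponent_le hx1 hθθ
          _ ≤ ((Q:ℝ) ^ A) ^ θ' := Real.rpow_le_rpow (by linarith) hxle (by linarith)
          _ = (Q:ℝ) ^ ((A:ℝ) * θ') := by
              rw [← Real.rpow_natCast, ← Real.rpow_mul hQ0.le]
          _ ≤ (Q:ℝ) ^ (((B - 1 : ℕ)) : ℝ) := Real.rpow_le_rpow_of_exponent_le hQR hAθ
          _ = (Q:ℝ) ^ (B - 1) := Real.rpow_natCast _ _
      exact_mod_cast e2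
    have hQA : Q ^ A ≤ Q ^ (B - 1) := Nat.pow_le_pow_right (by omega) hAB
    have hm6 := hm4 (Q ^ (B - 1)) hlen (by
      have e1 : N * (24 * Dm ^ 2 + 1) + N * (2 ^ Dm * (8 * Dm + 8)) ≤ N * K0 := by
        rw [← Nat.mul_add, hK0]
        exact Nat.mul_le_mul_left _ (by omega)
      have e2 : Q ^ B = Q * Q ^ (B - 1) := by
        rw [← pow_succ']; congr 1; omega
      have e3 : 84 * Q ^ (B - 1) ≤ Q * Q ^ (B - 1) := Nat.mul_le_mul_right _ hQ84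
      have e4 : 1 ≤ Q ^ (B - 1) := Nat.one_le_pow _ _ (by omega)
      rw [e2]
      omega)
    have h2Dm : 1 ≤ 2 ^ Dm := Nat.one_le_two_pow
    have hb1 : L + 2 * (2 * (N * 2 ^ Dm)) + 2 ≤ 2 * (L * Q ^ A) := by
      have e1 : 2 * (2 * (N * 2 ^ Dm)) + 2 ≤ N * K0 + K0 := by
        have e2 : 2 * (2 * (N * 2 ^ Dm)) = N * (2 ^ Dm * 4) := by ring
        have e3 : 2 ^ Dm * 4 ≤ K0 := by
          rw [hK0]
          have : 2 ^ Dm * 4 ≤ 2 ^ Dm * (8 * Dm + 8) := Nat.mul_le_mul_left _ (by omega)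
          omega
        have e4 : N * (2 ^ Dm * 4) ≤ N * K0 := Nat.mul_le_mul_left _ e3
        omega
      have e5 : L * 1 ≤ L * Q ^ A := Nat.mul_le_mul_left _ (Nat.one_le_pow _ _ (by omega))
      have e6 : 1 * Q ^ A ≤ L * Q ^ A := Nat.mul_le_mul_right _ hL1
      omega
    have hb2 : 6 * N + 7 ≤ Q ^ A := by
      refine le_trans ?_ hNK
      have : N * 7 ≤ N * K0 := Nat.mul_le_mul_left _ (by omega)
      omega
    have hb3 : 2 ^ (t ^ 2) < 2 * (L * Q ^ A) * Q ^ A :=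
      lt_of_lt_of_le hm6 (Nat.mul_le_mul hb1 hb2)
    have hb4 : 2 ^ (t ^ 2) < L * 2 ^ (4 * A * t + 1) := by
      have e1 : Q ^ A = 2 ^ (2 * A * t) := by
        rw [hQ, ← pow_mul, show (4:ℕ) = 2 ^ 2 by norm_num, ← pow_mul]
        congr 1; ring
      have e2 : 2 * (L * Q ^ A) * Q ^ A = L * 2 ^ (4 * A * t + 1) := by
        rw [e1, pow_succ, show 4 * A * t = 2 * A * t + 2 * A * t by ring, pow_add]
        ring
      rwa [e2] at hb3
    have hexp : 2 * (4 * A * t + 1) ≤ t ^ 2 := by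
      have : t * (8 * A + 2) ≤ t * t := Nat.mul_le_mul_left _ htA
      nlinarith
    have hLsq : 2 ^ (t ^ 2) ≤ L ^ 2 := by
      have e1 : 2 ^ (t ^ 2) * 2 ^ (t ^ 2) ≤ L ^ 2 * 2 ^ (t ^ 2) := by
        calc 2 ^ (t ^ 2) * 2 ^ (t ^ 2) ≤ (L * 2 ^ (4 * A * t + 1)) * (L * 2 ^ (4 * A * t + 1)) :=
              Nat.mul_le_mul hb4.le hb4.le
          _ = L ^ 2 * 2 ^ (2 * (4 * A * t + 1)) := by ring
          _ ≤ L ^ 2 * 2 ^ (t ^ 2) :=
              Nat.mul_le_mul_left _ (Nat.pow_le_pow_right (by norm_num) hexp)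
      exact Nat.le_of_mul_le_mul_right e1 (by positivity)
    obtain ⟨x, hx⟩ : ∃ x : ℝ, x = ((τ n).enc.length : ℝ) := ⟨_, rfl⟩
    rw [← hx] at hx1 hxle ⊢
    have hx0 : 0 < x := by linarith
    have hlog0 : 0 ≤ Real.log x := Real.log_nonneg hx1
    have hlog1 : Real.log x ≤ 2 * A * t * Real.log 2 := by
      have h3 := Real.log_le_log hx0 hxle
      rw [Real.log_pow, hQ] at h3
      push_cast at h3
      rw [Real.log_pow, show (4:ℝ) = 2 ^ 2 by norm_num, Real.log_pow] at h3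
      push_cast at h3
      linarith
    have hl2 : 0 < Real.log 2 := Real.log_pos (by norm_num)
    have hl21 : Real.log 2 ≤ 1 := by
      have := Real.log_two_lt_d9
      linarith
    have hsq : (x ^ (1 / (8 * (A:ℝ) ^ 2) * Real.log x)) ^ 2 ≤ (L:ℝ) ^ 2 := by
      have hLR : (2:ℝ) ^ (t ^ 2) ≤ (L:ℝ) ^ 2 := by exact_mod_cast hLsq
      refine le_trans ?_ hLR
      rw [← Real.rpow_natCast (x ^ _) 2, ← Real.rpow_mul hx0.le, Real.rpow_def_of_pos hx0]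
      have h2t : (2:ℝ) ^ (t ^ 2) = Real.exp ((t:ℝ) ^ 2 * Real.log 2) := by
        rw [← Real.rpow_natCast, Real.rpow_def_of_pos (by norm_num)]
        congr 1
        push_cast
        ring
      rw [h2t]
      refine Real.exp_le_exp.mpr ?_
      have h5 : Real.log x * (1 / (8 * (A:ℝ) ^ 2) * Real.log x * ((2:ℕ):ℝ))
          = Real.log x ^ 2 * (1 / (4 * (A:ℝ) ^ 2)) := by push_cast; ring
      rw [h5]
      calc Real.log x ^ 2 * (1 / (4 * (A:ℝ) ^ 2))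
          ≤ (2 * A * t * Real.log 2) ^ 2 * (1 / (4 * (A:ℝ) ^ 2)) := by
            refine mul_le_mul_of_nonneg_right ?_ (by positivity)
            exact pow_le_pow_left₀ hlog0 hlog1 2
        _ = (t:ℝ) ^ 2 * Real.log 2 * Real.log 2 := by
            field_simp
            ring
        _ ≤ (t:ℝ) ^ 2 * Real.log 2 * 1 := by
            refine mul_le_mul_of_nonneg_left hl21 (by positivity)
        _ = (t:ℝ) ^ 2 * Real.log 2 := by ring
    exact (sq_le_sq₀ (Real.rpow_nonneg hx0.le _) (Nat.cast_nonneg _)).mp hsq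

/-- the final theorem -/
theorem finalC (θ : ℝ) (hθ : θ < 2) :
    ∃ (k : ℕ) (c : ℝ), 0 < c ∧ ∃ (d : ℕ → ℕ) (C : ℕ → ℕ → Fm ℕ) (τ : ℕ → Fm ℕ),
      (∀ n, τ n = Fm.neg (bigAnd (d n) (C n))) ∧
      (∀ n i, IsClause k (C n i)) ∧
      (∀ n x, (τ n).eval x = true) ∧
      Tendsto (fun n => (τ n).enc.length) atTop atTop ∧
      ∀ Sch : Set (Fm ℕ), Sch.Finite → (∀ ψ ∈ Sch, ∀ x, ψ.eval x = true) →
        ∀ᶠ n in atTop, ∀ (L : ℕ) (pf : Fin L → Fm ℕ), IsDer Sch (Set.range (C n)) pf →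
          (∃ i, pf i = τ n) →
          ((τ n).enc.length : ℝ) ^ θ ≤ ∑ i, ((pf i).enc.length : ℝ) ∧
          ((∀ i, ((pf i).enc.length : ℝ) ≤ ((τ n).enc.length : ℝ) ^ θ) →
            ((τ n).enc.length : ℝ) ^ (c * Real.log ((τ n).enc.length : ℝ)) ≤ L) := by
  obtain ⟨k, c, hc, d, C, τ, h1, h2, h3, h4, h5⟩ := finalC0 θ hθ
  refine ⟨k, c, hc, d, C, τ, h1, h2, h3, h4, fun Sch hfin htaut => ?_⟩
  have h4' : Tendsto (fun n => c * Real.log ((τ n).enc.length : ℝ)) atTop atTop :=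
    (Real.tendsto_log_atTop.comp (tendsto_natCast_atTop_atTop.comp h4)).const_mul_atTop hc
  filter_upwards [h5 Sch hfin htaut, h4'.eventually_ge_atTop θ, h4.eventually_ge_atTop 1]
    with n h6 h7 h8
  intro L pf hpf hex
  have h9 := h6 L pf hpf hex
  refine ⟨?_, h9⟩
  by_contra hcon
  push Not at hcon
  have hx1 : (1:ℝ) ≤ ((τ n).enc.length : ℝ) := by exact_mod_cast h8
  have h10 := h9 fun i => by
    refine le_trans ?_ hcon.le
    exact Finset.single_le_sum (f := fun i => ((pf i).enc.length : ℝ))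
      (fun i _ => Nat.cast_nonneg _) (Finset.mem_univ i)
  have h11 : ((τ n).enc.length : ℝ) ^ θ ≤ L :=
    (Real.rpow_le_rpow_of_exponent_le hx1 h7).trans h10
  have h12 : (L : ℝ) ≤ ∑ i, ((pf i).enc.length : ℝ) := by
    calc (L:ℝ) = ∑ _i : Fin L, (1:ℝ) := by simp
      _ ≤ _ := by
        refine Finset.sum_le_sum fun i _ => ?_
        have e1 : 1 ≤ (pf i).len := by cases pf i <;> simp [Fm.len]
        exact_mod_cast e1.trans (len_le_enc _)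
  linarith

end Pool.Agent.H3.Frg4
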